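import Mathlib
import Pool.Agent.Q256.UG.Stm

set_option autoImplicit false

/-!
# Project UG, job CL2: nearly tangent lines
-/

namespace Pool.Agent.Q137.UG

open Pool.Agent.Q256.UG

/-- Mean value theorem for polynomials. -/
theorem pmvt (q : Polynomial ℝ) (u v : ℝ) :
    ∃ c : ℝ, min u v ≤ c ∧ c ≤ max u v ∧
      q.eval u - q.eval v = q.derivative.eval c * (u - v) := by
  rcases lt_trichotomy u v with h | h | h
  · obtain ⟨c, hc, hc2⟩ := exists_deriv_eq_slope (fun x => q.eval x) h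
      q.continuous.continuousOn q.differentiable.differentiableOn
    refine ⟨c, ?_, ?_, ?_⟩
    · rw [min_eq_left h.le]; exact hc.1.le
    · rw [max_eq_right h.le]; exact hc.2.le
    · rw [Polynomial.deriv] at hc2
      have h0 : v - u ≠ 0 := by linarith
      rw [eq_div_iff h0] at hc2
      linarith
  · refine ⟨u, min_le_left _ _, le_max_left _ _, ?_⟩
    rw [h]; ring
  · obtain ⟨c, hc, hc2⟩ := exists_deriv_eq_slope (fun x => q.eval x) h
      q.continuous.continuousOn q.differentiable.differentiableOn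
    refine ⟨c, ?_, ?_, ?_⟩
    · rw [min_eq_right h.le]; exact hc.1.le
    · rw [max_eq_left h.le]; exact hc.2.le
    · rw [Polynomial.deriv] at hc2
      have h0 : u - v ≠ 0 := by linarith
      rw [eq_div_iff h0] at hc2
      linarith

/-- First-order bounds. -/
theorem fst (h : Polynomial ℝ) (Λ a b : ℝ)
    (hh : ∀ z : ℝ, a ≤ z → z ≤ b → 9 / 10 * Λ ≤ h.derivative.derivative.eval z ∧
      h.derivative.derivative.eval z ≤ 11 / 10 * Λ) (u v : ℝ) (hu1 : a ≤ u) (hu2 : u ≤ b)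
    (hv1 : a ≤ v) (hv2 : v ≤ b) (huv : v ≤ u) :
    9 / 10 * Λ * (u - v) ≤ h.derivative.eval u - h.derivative.eval v ∧
      h.derivative.eval u - h.derivative.eval v ≤ 11 / 10 * Λ * (u - v) := by
  obtain ⟨c, hc1, hc2, hc3⟩ := pmvt h.derivative u v
  have h1 : a ≤ c := le_trans (le_min hu1 hv1) hc1
  have h2 : c ≤ b := le_trans hc2 (max_le hu2 hv2)
  obtain ⟨h3, h4⟩ := hh c h1 h2
  have h5 : 0 ≤ u - v := by linarith
  rw [hc3]
  exact ⟨mul_le_mul_of_nonneg_right h3 h5, mul_le_mul_of_nonneg_right h4 h5⟩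

/-- Second-order bounds. -/
theorem snd (h : Polynomial ℝ) (Λ a b : ℝ)
    (hh : ∀ z : ℝ, a ≤ z → z ≤ b → 9 / 10 * Λ ≤ h.derivative.derivative.eval z ∧
      h.derivative.derivative.eval z ≤ 11 / 10 * Λ) (u v : ℝ) (hu1 : a ≤ u) (hu2 : u ≤ b)
    (hv1 : a ≤ v) (hv2 : v ≤ b) :
    9 / 20 * Λ * (u - v) ^ 2 ≤ h.eval u - h.eval v - h.derivative.eval v * (u - v) ∧
      h.eval u - h.eval v - h.derivative.eval v * (u - v) ≤ 11 / 20 * Λ * (u - v) ^ 2 := by
  have key : ∀ κ : ℝ, ∃ c : ℝ, min u v ≤ c ∧ c ≤ max u v ∧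
      h.eval u - h.eval v - h.derivative.eval v * (u - v) - κ * (u - v) ^ 2 =
      (h.derivative.eval c - h.derivative.eval v - 2 * κ * (c - v)) * (u - v) := by
    intro κ
    obtain ⟨c, hc1, hc2, hc3⟩ := pmvt (h - Polynomial.C (h.derivative.eval v) *
      (Polynomial.X - Polynomial.C v) - Polynomial.C κ *
      (Polynomial.X - Polynomial.C v) ^ 2) u v
    refine ⟨c, hc1, hc2, ?_⟩
    have h1 : (h - Polynomial.C (h.derivative.eval v) * (Polynomial.X - Polynomial.C v) -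
        Polynomial.C κ * (Polynomial.X - Polynomial.C v) ^ 2).eval u = h.eval u -
        h.derivative.eval v * (u - v) - κ * (u - v) ^ 2 := by
      simp
    have h2 : (h - Polynomial.C (h.derivative.eval v) * (Polynomial.X - Polynomial.C v) -
        Polynomial.C κ * (Polynomial.X - Polynomial.C v) ^ 2).eval v = h.eval v := by
      simp
    have h3 : (h - Polynomial.C (h.derivative.eval v) * (Polynomial.X - Polynomial.C v) -
        Polynomial.C κ * (Polynomial.X - Polynomial.C v) ^ 2).derivative.eval c =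
        h.derivative.eval c - h.derivative.eval v - 2 * κ * (c - v) := by
      simp [Polynomial.derivative_pow]
      ring
    rw [h1, h2, h3] at hc3
    rw [← hc3]
    ring
  have hcmp : ∀ c : ℝ, min u v ≤ c → c ≤ max u v →
      (9 / 10 * Λ * (c - v)) * (u - v) ≤ (h.derivative.eval c - h.derivative.eval v) * (u - v) ∧
      (h.derivative.eval c - h.derivative.eval v) * (u - v) ≤
        (11 / 10 * Λ * (c - v)) * (u - v) := by
    intro c hc1 hc2
    have h1 : a ≤ c := le_trans (le_min hu1 hv1) hc1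
    have h2 : c ≤ b := le_trans hc2 (max_le hu2 hv2)
    rcases le_total v u with hvu | huv
    · rw [min_eq_right hvu] at hc1
      obtain ⟨h3, h4⟩ := fst h Λ a b hh c v h1 h2 hv1 hv2 hc1
      have h5 : 0 ≤ u - v := by linarith
      exact ⟨mul_le_mul_of_nonneg_right h3 h5, mul_le_mul_of_nonneg_right h4 h5⟩
    · rw [max_eq_right huv] at hc2
      obtain ⟨h3, h4⟩ := fst h Λ a b hh v c hv1 hv2 h1 h2 hc2
      have h5 : 0 ≤ v - u := by linarith
      have h6 := mul_le_mul_of_nonneg_right h3 h5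
      have h7 := mul_le_mul_of_nonneg_right h4 h5
      constructor <;> nlinarith
  constructor
  · obtain ⟨c, hc1, hc2, hc3⟩ := key (9 / 20 * Λ)
    obtain ⟨h3, h4⟩ := hcmp c hc1 hc2
    have h5 : 0 ≤ (h.derivative.eval c - h.derivative.eval v - 2 * (9 / 20 * Λ) * (c - v)) *
        (u - v) := by
      have : (h.derivative.eval c - h.derivative.eval v - 2 * (9 / 20 * Λ) * (c - v)) *
        (u - v) = (h.derivative.eval c - h.derivative.eval v) * (u - v) -
          (9 / 10 * Λ * (c - v)) * (u - v) := by ring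
      rw [this]; linarith
    rw [← hc3] at h5
    linarith
  · obtain ⟨c, hc1, hc2, hc3⟩ := key (11 / 20 * Λ)
    obtain ⟨h3, h4⟩ := hcmp c hc1 hc2
    have h5 : (h.derivative.eval c - h.derivative.eval v - 2 * (11 / 20 * Λ) * (c - v)) *
        (u - v) ≤ 0 := by
      have : (h.derivative.eval c - h.derivative.eval v - 2 * (11 / 20 * Λ) * (c - v)) *
        (u - v) = (h.derivative.eval c - h.derivative.eval v) * (u - v) -
          (11 / 10 * Λ * (c - v)) * (u - v) := by ring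
      rw [this]; linarith
    rw [← hc3] at h5
    linarith

/-- The solution of `h' w = -t` near `z`. -/
theorem solve (h : Polynomial ℝ) (Λ α β : ℝ) (hΛ : 1 ≤ Λ)
    (hh : ∀ z : ℝ, α - 1 / Λ ≤ z → z ≤ β + 1 / Λ →
      9 / 10 * Λ ≤ h.derivative.derivative.eval z ∧
      h.derivative.derivative.eval z ≤ 11 / 10 * Λ) (t z : ℝ) (hz1 : α ≤ z) (hz2 : z ≤ β)
    (ht : |t + h.derivative.eval z| ≤ 1 / 8) :
    ∃ w : ℝ, α - 1 / Λ ≤ w ∧ w ≤ β + 1 / Λ ∧ |z - w| ≤ 1 / (7 * Λ) ∧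
      h.derivative.eval w = - t := by
  have hΛ0 : 0 < Λ := by linarith
  have hδ : 0 < 1 / (7 * Λ) := by positivity
  have hδ2 : 1 / (7 * Λ) = 1 / 7 * (1 / Λ) := by field_simp
  have hL : 0 < 1 / Λ := by positivity
  have hmul : Λ * (1 / (7 * Λ)) = 1 / 7 := by field_simp
  rw [abs_le] at ht
  have hA := fst h Λ (α - 1 / Λ) (β + 1 / Λ) hh (z + 1 / (7 * Λ)) z (by linarith)
    (by rw [hδ2]; linarith) (by linarith) (by linarith) (by linarith)
  have hB := fst h Λ (α - 1 / Λ) (β + 1 / Λ) hh z (z - 1 / (7 * Λ)) (by linarith)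
    (by linarith) (by rw [hδ2]; linarith) (by linarith) (by linarith)
  have hA1 : h.derivative.eval (z + 1 / (7 * Λ)) - h.derivative.eval z ≥ 9 / 70 := by
    have := hA.1
    have h2 : 9 / 10 * Λ * (z + 1 / (7 * Λ) - z) = 9 / 10 * (Λ * (1 / (7 * Λ))) := by ring
    rw [h2, hmul] at this
    linarith
  have hB1 : h.derivative.eval z - h.derivative.eval (z - 1 / (7 * Λ)) ≥ 9 / 70 := by
    have := hB.1
    have h2 : 9 / 10 * Λ * (z - (z - 1 / (7 * Λ))) = 9 / 10 * (Λ * (1 / (7 * Λ))) := by ring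
    rw [h2, hmul] at this
    linarith
  have hivt := intermediate_value_Icc (f := fun x => h.derivative.eval x)
    (show z - 1 / (7 * Λ) ≤ z + 1 / (7 * Λ) by linarith) h.derivative.continuous.continuousOn
  have hmem : -t ∈ Set.Icc ((fun x => h.derivative.eval x) (z - 1 / (7 * Λ)))
      ((fun x => h.derivative.eval x) (z + 1 / (7 * Λ))) := by
    constructor
    · show h.derivative.eval (z - 1 / (7 * Λ)) ≤ -t
      linarith [ht.2]
    · show -t ≤ h.derivative.eval (z + 1 / (7 * Λ))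
      linarith [ht.1]
  obtain ⟨w, hw, hw2⟩ := hivt hmem
  refine ⟨w, ?_, ?_, ?_, hw2⟩
  · have := hw.1
    rw [hδ2] at this
    linarith
  · have := hw.2
    rw [hδ2] at this
    linarith
  · rw [abs_le]
    constructor
    · linarith [hw.2]
    · linarith [hw.1]

/-- Real bounds for the determinant. -/
theorem core3a (m n c P Q E F : ℝ) (hm : 1 ≤ m) (hn : 1 ≤ n) (hc : 0 < c)
    (a1 : 37 / 100 * c * m ^ 2 ≤ P) (a2 : P ≤ 68 / 100 * c * m ^ 2)
    (b1 : 37 / 100 * c * n ^ 2 ≤ Q) (b2 : Q ≤ 68 / 100 * c * n ^ 2)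
    (e1 : -(44 / 1000 * c) ≤ E) (e2 : E ≤ 44 / 1000 * c)
    (f1 : -(44 / 1000 * c) ≤ F) (f2 : F ≤ 44 / 1000 * c) :
    32 / 100 * (m * n * (c * (m + n))) ≤ n * P + m * Q + (n * E + m * F) ∧
      n * P + m * Q + (n * E + m * F) ≤ 73 / 100 * (m * n * (c * (m + n))) := by
  have hm0 : 0 < m := by linarith
  have hn0 : 0 < n := by linarith
  have hmn : 1 ≤ m * n := by nlinarith
  have hcs : 0 < c * (m + n) := by positivity
  have k0 : 1 * (c * (m + n)) ≤ m * n * (c * (m + n)) :=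
    mul_le_mul_of_nonneg_right hmn hcs.le
  have q1 : n * E ≤ n * (44 / 1000 * c) := mul_le_mul_of_nonneg_left e2 hn0.le
  have q2 : n * (-(44 / 1000 * c)) ≤ n * E := mul_le_mul_of_nonneg_left e1 hn0.le
  have q3 : m * F ≤ m * (44 / 1000 * c) := mul_le_mul_of_nonneg_left f2 hm0.le
  have q4 : m * (-(44 / 1000 * c)) ≤ m * F := mul_le_mul_of_nonneg_left f1 hm0.le
  have p1 : n * (37 / 100 * c * m ^ 2) ≤ n * P := mul_le_mul_of_nonneg_left a1 hn0.le
  have p2 : n * P ≤ n * (68 / 100 * c * m ^ 2) := mul_le_mul_of_nonneg_left a2 hn0.le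
  have p3 : m * (37 / 100 * c * n ^ 2) ≤ m * Q := mul_le_mul_of_nonneg_left b1 hm0.le
  have p4 : m * Q ≤ m * (68 / 100 * c * n ^ 2) := mul_le_mul_of_nonneg_left b2 hm0.le
  have hX : 0 < m * n * (c * (m + n)) := by positivity
  constructor
  · linarith only [p1, p3, q2, q4, k0, hX]
  · linarith only [p2, p4, q1, q3, k0, hX]

/-- The core inequality for three points in order. -/
theorem core3 (Λ : ℝ) (hΛ : 1 ≤ Λ) (s1 s2 s3 t1 t2 t3 : ℤ) (w2 G1 G2 G3 : ℝ)
    (h12 : t1 < t2) (h23 : t2 < t3)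
    (e1 : |(s1 : ℝ) - G1| ≤ 22 / 1000 / Λ) (e2 : |(s2 : ℝ) - G2| ≤ 22 / 1000 / Λ)
    (e3 : |(s3 : ℝ) - G3| ≤ 22 / 1000 / Λ)
    (a1 : 37 / 100 / Λ * ((t1 : ℝ) - t2) ^ 2 ≤ G1 - G2 + w2 * ((t1 : ℝ) - t2))
    (a2 : G1 - G2 + w2 * ((t1 : ℝ) - t2) ≤ 68 / 100 / Λ * ((t1 : ℝ) - t2) ^ 2)
    (b1 : 37 / 100 / Λ * ((t3 : ℝ) - t2) ^ 2 ≤ G3 - G2 + w2 * ((t3 : ℝ) - t2))
    (b2 : G3 - G2 + w2 * ((t3 : ℝ) - t2) ≤ 68 / 100 / Λ * ((t3 : ℝ) - t2) ^ 2) :
    Λ ≤ ((t3 : ℝ) - t1) ^ 3 := by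
  have hΛ0 : 0 < Λ := by linarith
  obtain ⟨m, hm⟩ : ∃ m : ℝ, m = (t2 : ℝ) - t1 := ⟨_, rfl⟩
  obtain ⟨n, hn⟩ : ∃ n : ℝ, n = (t3 : ℝ) - t2 := ⟨_, rfl⟩
  have hm1 : 1 ≤ m := by
    have : (1 : ℤ) ≤ t2 - t1 := by omega
    have h2 : ((1 : ℤ) : ℝ) ≤ ((t2 - t1 : ℤ) : ℝ) := by exact_mod_cast this
    push_cast at h2
    rw [hm]; linarith only [h2]
  have hn1 : 1 ≤ n := by
    have : (1 : ℤ) ≤ t3 - t2 := by omega
    have h2 : ((1 : ℤ) : ℝ) ≤ ((t3 - t2 : ℤ) : ℝ) := by exact_mod_cast this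
    push_cast at h2
    rw [hn]; linarith only [h2]
  have ht12 : (t1 : ℝ) - t2 = -m := by rw [hm]; ring
  have ht32 : (t3 : ℝ) - t2 = n := hn.symm
  rw [ht12, neg_sq] at a1 a2
  rw [ht32] at b1 b2
  rw [abs_le] at e1 e2 e3
  have hc0 : 0 < 1 / Λ := by positivity
  have r1 : 22 / 1000 / Λ = 22 / 1000 * (1 / Λ) := by ring
  have r2 : 37 / 100 / Λ = 37 / 100 * (1 / Λ) := by ring
  have r3 : 68 / 100 / Λ = 68 / 100 * (1 / Λ) := by ring
  rw [r1] at e1 e2 e3
  rw [r2] at a1 b1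
  rw [r3] at a2 b2
  have hmain : n * ((s1 : ℝ) - s2) + m * ((s3 : ℝ) - s2) =
      n * (G1 - G2 + w2 * (-m)) + m * (G3 - G2 + w2 * n) +
      (n * (((s1 : ℝ) - G1) - ((s2 : ℝ) - G2)) + m * (((s3 : ℝ) - G3) - ((s2 : ℝ) - G2))) := by
    ring
  obtain ⟨hlow, hupp⟩ := core3a m n (1 / Λ) (G1 - G2 + w2 * (-m)) (G3 - G2 + w2 * n)
    (((s1 : ℝ) - G1) - ((s2 : ℝ) - G2)) (((s3 : ℝ) - G3) - ((s2 : ℝ) - G2)) hm1 hn1 hc0
    a1 a2 b1 b2 (by linarith only [e1.1, e2.2]) (by linarith only [e1.2, e2.1])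
    (by linarith only [e3.1, e2.2]) (by linarith only [e3.2, e2.1])
  rw [← hmain] at hlow hupp
  have hm0 : 0 < m := by linarith only [hm1]
  have hn0 : 0 < n := by linarith only [hn1]
  have hsum : 0 < m + n := by linarith only [hm0, hn0]
  have hX : 0 < m * n * (1 / Λ * (m + n)) := by positivity
  have hDpos : 0 < n * ((s1 : ℝ) - s2) + m * ((s3 : ℝ) - s2) := by
    linarith only [hX, hlow]
  have hDint : n * ((s1 : ℝ) - s2) + m * ((s3 : ℝ) - s2) =
      (((t3 - t2) * (s1 - s2) + (t2 - t1) * (s3 - s2) : ℤ) : ℝ) := by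
    rw [hm, hn]
    push_cast
    ring
  have hD1 : 1 ≤ n * ((s1 : ℝ) - s2) + m * ((s3 : ℝ) - s2) := by
    rw [hDint] at hDpos ⊢
    have h1 : (0 : ℤ) < (t3 - t2) * (s1 - s2) + (t2 - t1) * (s3 - s2) := by
      exact_mod_cast hDpos
    have h2 : (1 : ℤ) ≤ (t3 - t2) * (s1 - s2) + (t2 - t1) * (s3 - s2) := h1
    exact_mod_cast h2
  have h4 : 1 ≤ m * n * (1 / Λ * (m + n)) := by
    linarith only [hX, hupp, hD1]
  have h5 : Λ ≤ m * n * (m + n) := by
    have h6 : m * n * (1 / Λ * (m + n)) = m * n * (m + n) / Λ := by ring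
    rw [h6, le_div_iff₀ hΛ0] at h4
    linarith only [h4]
  have h7 : (t3 : ℝ) - t1 = m + n := by rw [hm, hn]; ring
  rw [h7]
  have h8 : m * n ≤ (m + n) ^ 2 := by nlinarith [mul_pos hm0 hn0]
  calc Λ ≤ m * n * (m + n) := h5
    _ ≤ (m + n) ^ 2 * (m + n) := mul_le_mul_of_nonneg_right h8 hsum.le
    _ = (m + n) ^ 3 := by ring

theorem cl2 : S_CL2 := by
  intro h Λ α β hΛ hαβ hh p hp hz
  have hΛ0 : 0 < Λ := by linarith
  choose z hz1 hz2 hz3 hz4 using hz
  have hw := fun i => solve h Λ α β hΛ hh ((p i).2 : ℝ) (z i) (hz1 i) (hz2 i) (hz4 i)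
  choose w hw1 hw2 hw3 hw4 using hw
  have hL : 0 < 1 / Λ := by positivity
  set G : Fin 3 → ℝ := fun i => -(((p i).2 : ℝ) * w i + h.eval (w i)) with hG
  -- `s` and `G`
  have hsG : ∀ i, |((p i).1 : ℝ) - G i| ≤ 22 / 1000 / Λ := by
    intro i
    have h1 := snd h Λ (α - 1 / Λ) (β + 1 / Λ) hh (z i) (w i) (by linarith [hz1 i])
      (by linarith [hz2 i]) (hw1 i) (hw2 i)
    have h2 : ((p i).1 : ℝ) - G i = (((p i).1 : ℝ) + (p i).2 * z i + h.eval (z i)) -
        (h.eval (z i) - h.eval (w i) - h.derivative.eval (w i) * (z i - w i)) := by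
      rw [hw4 i, hG]; ring
    have h3 : (z i - w i) ^ 2 ≤ (1 / (7 * Λ)) ^ 2 := by
      rw [← sq_abs (z i - w i)]
      exact pow_le_pow_left₀ (abs_nonneg _) (hw3 i) 2
    have h4 : 11 / 20 * Λ * (z i - w i) ^ 2 ≤ 11 / 980 / Λ := by
      calc 11 / 20 * Λ * (z i - w i) ^ 2 ≤ 11 / 20 * Λ * (1 / (7 * Λ)) ^ 2 :=
            mul_le_mul_of_nonneg_left h3 (by positivity)
        _ = 11 / 980 / Λ := by field_simp; norm_num
    have h5 : 0 ≤ 9 / 20 * Λ * (z i - w i) ^ 2 := by positivity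
    have h6 := hz3 i
    rw [abs_le] at h6
    have h7 : 1 / (100 * Λ) = 1 / 100 * (1 / Λ) := by field_simp
    have h8 : 11 / 980 / Λ = 11 / 980 * (1 / Λ) := by ring
    have h9 : 22 / 1000 / Λ = 22 / 1000 * (1 / Λ) := by ring
    rw [h2, abs_le, h9]
    rw [h7] at h6
    rw [h8] at h4
    constructor <;> linarith [h1.1, h1.2, h6.1, h6.2]
  -- the quadratic relation
  have hE : ∀ i j, 37 / 100 / Λ * (((p j).2 : ℝ) - (p i).2) ^ 2 ≤
      G j - G i + w i * (((p j).2 : ℝ) - (p i).2) ∧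
      G j - G i + w i * (((p j).2 : ℝ) - (p i).2) ≤
        68 / 100 / Λ * (((p j).2 : ℝ) - (p i).2) ^ 2 := by
    intro i j
    have h1 := snd h Λ (α - 1 / Λ) (β + 1 / Λ) hh (w i) (w j) (hw1 i) (hw2 i) (hw1 j) (hw2 j)
    have h2 : G j - G i + w i * (((p j).2 : ℝ) - (p i).2) =
        h.eval (w i) - h.eval (w j) - h.derivative.eval (w j) * (w i - w j) := by
      rw [hw4 j, hG]; ring
    rw [h2]
    have hdiff : ((p j).2 : ℝ) - (p i).2 = h.derivative.eval (w i) - h.derivative.eval (w j) := by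
      rw [hw4 i, hw4 j]; ring
    have h3 : (9 / 10 * Λ) ^ 2 * (w i - w j) ^ 2 ≤ (((p j).2 : ℝ) - (p i).2) ^ 2 ∧
        (((p j).2 : ℝ) - (p i).2) ^ 2 ≤ (11 / 10 * Λ) ^ 2 * (w i - w j) ^ 2 := by
      rcases le_total (w j) (w i) with hle | hle
      · obtain ⟨q1, q2⟩ := fst h Λ (α - 1 / Λ) (β + 1 / Λ) hh (w i) (w j) (hw1 i) (hw2 i)
          (hw1 j) (hw2 j) hle
        rw [← hdiff] at q1 q2
        have q3 : 0 ≤ w i - w j := by linarith
        constructor
        · rw [← mul_pow]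
          exact pow_le_pow_left₀ (by positivity) q1 2
        · rw [← mul_pow]
          exact pow_le_pow_left₀ (le_trans (by positivity) q1) q2 2
      · obtain ⟨q1, q2⟩ := fst h Λ (α - 1 / Λ) (β + 1 / Λ) hh (w j) (w i) (hw1 j) (hw2 j)
          (hw1 i) (hw2 i) hle
        have hneg : h.derivative.eval (w j) - h.derivative.eval (w i) =
            -(((p j).2 : ℝ) - (p i).2) := by rw [hdiff]; ring
        rw [hneg] at q1 q2
        have q3 : 0 ≤ w j - w i := by linarith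
        have q4 : (w i - w j) ^ 2 = (w j - w i) ^ 2 := by ring
        have q5 : (((p j).2 : ℝ) - (p i).2) ^ 2 = (-(((p j).2 : ℝ) - (p i).2)) ^ 2 := by ring
        rw [q4, q5]
        constructor
        · rw [← mul_pow]
          exact pow_le_pow_left₀ (by positivity) q1 2
        · rw [← mul_pow]
          exact pow_le_pow_left₀ (le_trans (by positivity) q1) q2 2
    constructor
    · refine le_trans ?_ h1.1
      have h4 : 37 / 100 / Λ * (((p j).2 : ℝ) - (p i).2) ^ 2 ≤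
          37 / 100 / Λ * ((11 / 10 * Λ) ^ 2 * (w i - w j) ^ 2) :=
        mul_le_mul_of_nonneg_left h3.2 (by positivity)
      have h5 : 37 / 100 / Λ * ((11 / 10 * Λ) ^ 2 * (w i - w j) ^ 2) =
          4477 / 10000 * Λ * (w i - w j) ^ 2 := by field_simp; ring
      have h6 : 4477 / 10000 * Λ * (w i - w j) ^ 2 ≤ 9 / 20 * Λ * (w i - w j) ^ 2 := by
        apply mul_le_mul_of_nonneg_right _ (sq_nonneg _)
        linarith
      linarith
    · refine le_trans h1.2 ?_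
      have h4 : 68 / 100 / Λ * ((9 / 10 * Λ) ^ 2 * (w i - w j) ^ 2) ≤
          68 / 100 / Λ * (((p j).2 : ℝ) - (p i).2) ^ 2 :=
        mul_le_mul_of_nonneg_left h3.1 (by positivity)
      have h5 : 68 / 100 / Λ * ((9 / 10 * Λ) ^ 2 * (w i - w j) ^ 2) =
          5508 / 10000 * Λ * (w i - w j) ^ 2 := by field_simp; ring
      have h6 : 11 / 20 * Λ * (w i - w j) ^ 2 ≤ 5508 / 10000 * Λ * (w i - w j) ^ 2 := by
        apply mul_le_mul_of_nonneg_right _ (sq_nonneg _)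
        linarith
      linarith
  -- the second coordinates are different
  have hinj : ∀ i j, (p i).2 = (p j).2 → i = j := by
    intro i j hij
    have h1 := hE i j
    rw [hij] at h1
    have h2 : G j = G i := by
      have q1 := h1.1
      have q2 := h1.2
      simp only [sub_self, mul_zero, ne_eq, OfNat.ofNat_ne_zero, not_false_eq_true, zero_pow,
        add_zero] at q1 q2
      linarith
    have h3 := hsG i
    have h4 := hsG j
    rw [h2] at h4
    have h5 : |((p i).1 : ℝ) - (p j).1| < 1 := by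
      have e : ((p i).1 : ℝ) - (p j).1 = (((p i).1 : ℝ) - G i) - (((p j).1 : ℝ) - G i) := by ring
      rw [e]
      have h6 : 22 / 1000 / Λ ≤ 22 / 1000 := div_le_self (by norm_num) hΛ
      calc |(((p i).1 : ℝ) - G i) - (((p j).1 : ℝ) - G i)|
          ≤ |((p i).1 : ℝ) - G i| + |((p j).1 : ℝ) - G i| := abs_sub _ _
        _ ≤ 22 / 1000 + 22 / 1000 := by linarith
        _ < 1 := by norm_num
    have h6 : (p i).1 = (p j).1 := by
      have h7 : |(p i).1 - (p j).1| < 1 := by exact_mod_cast h5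
      rw [Int.abs_lt_one_iff] at h7
      omega
    exact hp (Prod.ext h6 hij)
  -- three points in order
  have hord : ∀ i j k, (p i).2 < (p j).2 → (p j).2 < (p k).2 →
      ∃ i j, Λ ≤ |((p i).2 : ℝ) - (p j).2| ^ 3 := by
    intro i j k hij hjk
    have h1 := core3 Λ hΛ (p i).1 (p j).1 (p k).1 (p i).2 (p j).2 (p k).2 (w j) (G i) (G j)
      (G k) hij hjk (hsG i) (hsG j) (hsG k) (hE j i).1 (hE j i).2 (hE j k).1 (hE j k).2
    refine ⟨k, i, ?_⟩
    have h2 : (0 : ℝ) ≤ ((p k).2 : ℝ) - (p i).2 := by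
      have : (p i).2 ≤ (p k).2 := by omega
      have : ((p i).2 : ℝ) ≤ (p k).2 := by exact_mod_cast this
      linarith
    rw [abs_of_nonneg h2]
    exact h1
  have n01 : (p 0).2 ≠ (p 1).2 := fun e => by simpa using hinj 0 1 e
  have n12 : (p 1).2 ≠ (p 2).2 := fun e => by simpa using hinj 1 2 e
  have n02 : (p 0).2 ≠ (p 2).2 := fun e => by simpa using hinj 0 2 e
  rcases lt_or_gt_of_ne n01 with a | a <;> rcases lt_or_gt_of_ne n12 with b | b <;>
    rcases lt_or_gt_of_ne n02 with c | c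
  · exact hord 0 1 2 a b
  · omega
  · exact hord 0 2 1 c b
  · exact hord 2 0 1 c a
  · exact hord 1 0 2 a c
  · exact hord 1 2 0 b c
  · omega
  · exact hord 2 1 0 b a

end Pool.Agent.Q137.UG
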