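import Mathlib
import Pool.Agent.Q256.UG.Stm

set_option autoImplicit false

/-!
# Project UG, job CL3: the count on a short interval
-/

namespace Pool.Agent.Q137.UG3

open Pool.Agent.Q256.UG

/-- Mean value inequality for polynomials. -/
theorem pmv (q : Polynomial ℝ) (M a b : ℝ)
    (hM : ∀ z : ℝ, a ≤ z → z ≤ b → |q.derivative.eval z| ≤ M) (u v : ℝ)
    (hu1 : a ≤ u) (hu2 : u ≤ b) (hv1 : a ≤ v) (hv2 : v ≤ b) :
    |q.eval u - q.eval v| ≤ M * |u - v| := by
  have hconv : Convex ℝ (Set.Icc a b) := convex_Icc a b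
  have h := hconv.norm_image_sub_le_of_norm_deriv_le (f := fun x => q.eval x) (C := M)
    (fun x _ => q.differentiable.differentiableAt) ?_ ⟨hv1, hv2⟩ ⟨hu1, hu2⟩
  · simpa [Real.norm_eq_abs] using h
  · intro x hx
    rw [Polynomial.deriv, Real.norm_eq_abs]
    exact hM x hx.1 hx.2

/-- Counting points with at most two in each strip. -/
theorem cnt (S : Set (ℤ × ℤ)) (R L : ℝ) (hR : 0 < R) (hL : 0 ≤ L)
    (h1 : ∀ p ∈ S, ∀ q ∈ S, |(p.2 : ℝ) - q.2| ≤ L)
    (h2 : ∀ p : Fin 3 → ℤ × ℤ, Function.Injective p → (∀ i, p i ∈ S) →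
      ∃ i j, R ≤ |((p i).2 : ℝ) - (p j).2|) :
    S.Finite ∧ (S.ncard : ℝ) ≤ 4 * (L / R) + 4 := by
  classical
  have hLR : 0 ≤ L / R := by positivity
  -- bound for finite subsets
  have key : ∀ T : Finset (ℤ × ℤ), (T : Set (ℤ × ℤ)) ⊆ S → (T.card : ℝ) ≤ 4 * (L / R) + 4 := by
    intro T hT
    rcases T.eq_empty_or_nonempty with he | ⟨p0, hp0⟩
    · rw [he]; simp; positivity
    have hp0S : p0 ∈ S := hT hp0
    set f : ℤ × ℤ → ℤ := fun p => ⌊((p.2 : ℝ) - p0.2) / R⌋ with hf
    have himg : T.image f ⊆ Finset.Icc ⌊-(L / R)⌋ ⌊L / R⌋ := by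
      intro k hk
      rw [Finset.mem_image] at hk
      obtain ⟨p, hp, rfl⟩ := hk
      have h3 := h1 p (hT hp) p0 hp0S
      rw [abs_le] at h3
      rw [Finset.mem_Icc]
      constructor
      · apply Int.floor_le_floor
        rw [← neg_div]
        exact div_le_div_of_nonneg_right h3.1 hR.le
      · apply Int.floor_le_floor
        exact div_le_div_of_nonneg_right h3.2 hR.le
    have hfib : ∀ k ∈ T.image f, (T.filter (fun p => f p = k)).card ≤ 2 := by
      intro k _
      by_contra hcon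
      push Not at hcon
      obtain ⟨a, b, c, ha, hb, hc, hab, hac, hbc⟩ := Finset.two_lt_card_iff.1 hcon
      rw [Finset.mem_filter] at ha hb hc
      have hinj : Function.Injective (![a, b, c] : Fin 3 → ℤ × ℤ) := by
        intro i j hij
        fin_cases i <;> fin_cases j <;> simp_all
      have hmem : ∀ i, (![a, b, c] : Fin 3 → ℤ × ℤ) i ∈ T ∧
          f ((![a, b, c] : Fin 3 → ℤ × ℤ) i) = k := by
        intro i
        fin_cases i
        · exact ha
        · exact hb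
        · exact hc
      obtain ⟨i, j, hij⟩ := h2 _ hinj (fun i => hT (hmem i).1)
      have e1 := (hmem i).2
      have e2 := (hmem j).2
      have e3 : f ((![a, b, c] : Fin 3 → ℤ × ℤ) i) = f ((![a, b, c] : Fin 3 → ℤ × ℤ) j) := by
        rw [e1, e2]
      have e4 := Int.abs_sub_lt_one_of_floor_eq_floor e3
      have e5 : ((((![a, b, c] : Fin 3 → ℤ × ℤ) i).2 : ℝ) - p0.2) / R -
          ((((![a, b, c] : Fin 3 → ℤ × ℤ) j).2 : ℝ) - p0.2) / R =
          ((((![a, b, c] : Fin 3 → ℤ × ℤ) i).2 : ℝ) -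
            ((![a, b, c] : Fin 3 → ℤ × ℤ) j).2) / R := by ring
      rw [e5, abs_div, abs_of_pos hR, div_lt_one hR] at e4
      linarith
    have hcard := Finset.card_le_mul_card_image (s := T) (f := f) 2 hfib
    have hcard2 := Finset.card_le_card himg
    rw [Int.card_Icc] at hcard2
    have hle : ⌊-(L / R)⌋ ≤ ⌊L / R⌋ := Int.floor_le_floor (by linarith)
    have hf1 : (⌊L / R⌋ : ℝ) ≤ L / R := Int.floor_le _
    have hf2 : -(L / R) - 1 < (⌊-(L / R)⌋ : ℝ) := Int.sub_one_lt_floor _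
    have h5 : (((⌊L / R⌋ + 1 - ⌊-(L / R)⌋).toNat : ℕ) : ℝ) ≤ 2 * (L / R) + 2 := by
      have h6 : (((⌊L / R⌋ + 1 - ⌊-(L / R)⌋).toNat : ℤ)) = ⌊L / R⌋ + 1 - ⌊-(L / R)⌋ :=
        Int.toNat_of_nonneg (by omega)
      have h7 : (((⌊L / R⌋ + 1 - ⌊-(L / R)⌋).toNat : ℕ) : ℝ) =
          (⌊L / R⌋ : ℝ) + 1 - (⌊-(L / R)⌋ : ℝ) := by
        exact_mod_cast congrArg (fun z : ℤ => (z : ℝ)) h6
      rw [h7]
      linarith
    have h8 : ((T.image f).card : ℝ) ≤ 2 * (L / R) + 2 :=
      le_trans (by exact_mod_cast hcard2) h5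
    have h9 : (T.card : ℝ) ≤ 2 * ((T.image f).card : ℝ) := by exact_mod_cast hcard
    linarith
  have hfin : S.Finite := by
    by_contra hinf
    obtain ⟨T, hT, hTc⟩ := Set.Infinite.exists_subset_card_eq hinf (⌊4 * (L / R) + 4⌋₊ + 1)
    have h3 := key T hT
    rw [hTc] at h3
    have h4 := Nat.lt_floor_add_one (4 * (L / R) + 4)
    push_cast at h3
    linarith
  refine ⟨hfin, ?_⟩
  have h3 := key hfin.toFinset (by rw [Set.Finite.coe_toFinset])
  rw [Set.ncard_eq_toFinset_card S hfin]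
  exact h3

/-- The version with a sign. -/
theorem cl2s (hCL2 : S_CL2) (h : Polynomial ℝ) (Λ α β σ : ℝ) (hσ : σ = 1 ∨ σ = -1)
    (hΛ : 1 ≤ Λ) (hαβ : α ≤ β)
    (hh : ∀ z : ℝ, α - 1 / Λ ≤ z → z ≤ β + 1 / Λ →
      9 / 10 * Λ ≤ σ * h.derivative.derivative.eval z ∧
      σ * h.derivative.derivative.eval z ≤ 11 / 10 * Λ)
    (p : Fin 3 → ℤ × ℤ) (hp : Function.Injective p)
    (hz : ∀ i, ∃ z : ℝ, α ≤ z ∧ z ≤ β ∧
      |((p i).1 : ℝ) + (p i).2 * z + h.eval z| ≤ 1 / (100 * Λ) ∧
      |((p i).2 : ℝ) + h.derivative.eval z| ≤ 1 / 8) :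
    ∃ i j, Λ ≤ |((p i).2 : ℝ) - (p j).2| ^ 3 := by
  rcases hσ with rfl | rfl
  · simp only [one_mul] at hh
    exact hCL2 h Λ α β hΛ hαβ hh p hp hz
  · obtain ⟨i, j, hij⟩ := hCL2 (-h) Λ α β hΛ hαβ
      (by
        intro z h1 h2
        have h3 := hh z h1 h2
        simp only [Polynomial.derivative_neg, Polynomial.eval_neg]
        constructor <;> linarith [h3.1, h3.2])
      (fun i => (-(p i).1, -(p i).2))
      (by
        intro i j hij
        simp only [Prod.mk.injEq, neg_inj] at hij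
        exact hp (Prod.ext hij.1 hij.2))
      (by
        intro i
        obtain ⟨z, h1, h2, h3, h4⟩ := hz i
        refine ⟨z, h1, h2, ?_, ?_⟩
        · have e : ((-(p i).1 : ℤ) : ℝ) + ((-(p i).2 : ℤ) : ℝ) * z + (-h).eval z =
              -(((p i).1 : ℝ) + (p i).2 * z + h.eval z) := by
            push_cast
            rw [Polynomial.eval_neg]
            ring
          show |((-(p i).1 : ℤ) : ℝ) + ((-(p i).2 : ℤ) : ℝ) * z + (-h).eval z| ≤ _
          rw [e, abs_neg]
          exact h3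
        · have e : ((-(p i).2 : ℤ) : ℝ) + (-h).derivative.eval z =
              -(((p i).2 : ℝ) + h.derivative.eval z) := by
            push_cast
            rw [Polynomial.derivative_neg, Polynomial.eval_neg]
            ring
          show |((-(p i).2 : ℤ) : ℝ) + (-h).derivative.eval z| ≤ _
          rw [e, abs_neg]
          exact h4)
    refine ⟨i, j, ?_⟩
    have e : (((-(p i).2 : ℤ) : ℝ)) - ((-(p j).2 : ℤ) : ℝ) = -(((p i).2 : ℝ) - (p j).2) := by
      push_cast; ring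
    have h5 : Λ ≤ |(((-(p i).2 : ℤ) : ℝ)) - ((-(p j).2 : ℤ) : ℝ)| ^ 3 := hij
    rw [e, abs_neg] at h5
    exact h5

theorem cl3 : S_CL2 → S_CL3 := by
  intro hCL2 B hB
  have hB0 : 0 < B := by linarith
  refine ⟨100 * B ^ 2, 1000 * B ^ 3, by nlinarith, by nlinarith [one_le_pow₀ (n := 3) hB], ?_⟩
  intro H α h hH hα hder
  have hB3 : 1 ≤ B ^ 3 := one_le_pow₀ hB
  have hB2 : 1 ≤ B ^ 2 := one_le_pow₀ hB
  have hH1 : 1 ≤ H := by linarith
  have hH0 : 0 < H := by linarith
  set x : ℝ := H ^ ((1 : ℝ) / 3) with hx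
  have hx0 : 0 < x := Real.rpow_pos_of_pos hH0 _
  have hx3 : x ^ 3 = H := by
    rw [hx, ← Real.rpow_natCast, ← Real.rpow_mul hH0.le]
    norm_num
  have hx2 : H ^ ((2 : ℝ) / 3) = x ^ 2 := by
    rw [hx, ← Real.rpow_natCast, ← Real.rpow_mul hH0.le]
    norm_num
  rw [hx2]
  have hxB : 10 * B ≤ x := by
    by_contra hcon
    push Not at hcon
    have h1 : x ^ 3 < (10 * B) ^ 3 := pow_lt_pow_left₀ hcon hx0.le (by norm_num)
    rw [hx3] at h1
    have h2 : (10 * B) ^ 3 = 1000 * B ^ 3 := by ring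
    linarith
  set η : ℝ := 1 / (100 * B ^ 2 * x) with hη
  have hη0 : 0 < η := by positivity
  have hηx : η * (100 * B ^ 2 * x) = 1 := by rw [hη]; field_simp
  have hη1 : η ≤ 1 / 100 := by
    have h1 : 100 ≤ 100 * B ^ 2 * x := by nlinarith
    rw [hη]
    exact one_div_le_one_div_of_le (by norm_num) h1
  set S : Set (ℤ × ℤ) := {p : ℤ × ℤ | ∃ z : ℝ, α ≤ z ∧ z ≤ α + η ∧
      |(p.1 : ℝ) + p.2 * z + h.eval z| * H ^ 2 ≤ 1 ∧ |(p.2 : ℝ) + h.derivative.eval z| ≤ 1 / 8 ∧
      2 * x ^ 2 ≤ |h.derivative.derivative.eval z|} with hS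
  rcases S.eq_empty_or_nonempty with he | ⟨q0, hq0⟩
  · rw [he]
    refine ⟨Set.finite_empty, ?_⟩
    simp only [Set.ncard_empty, Nat.cast_zero]
    positivity
  obtain ⟨z0, hz1, hz2, -, -, hz5⟩ := hq0
  rw [abs_le] at hα
  set Λ : ℝ := |h.derivative.derivative.eval z0| with hΛ
  have hz0 : |z0| ≤ 4 := by rw [abs_le]; constructor <;> linarith
  have hΛB : Λ ≤ B * H := (hder z0 hz0).1
  have hx1 : 10 ≤ x := by linarith
  have hΛ1 : 1 ≤ Λ := by nlinarith
  have hΛ0 : 0 < Λ := by linarith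
  have hΛi : 1 / Λ ≤ 1 := by rw [div_le_one hΛ0]; exact hΛ1
  have hΛi0 : 0 < 1 / Λ := by positivity
  have hBH : B * H * (η + 1 / Λ) ≤ Λ / 10 := by
    have h1 : B * H * η ≤ x ^ 2 / 100 := by
      have e : B * H * η = x ^ 2 / (100 * B) := by
        rw [hη, ← hx3]; field_simp
      rw [e]
      apply div_le_div_of_nonneg_left (by positivity) (by norm_num) (by linarith)
    have h2 : 1 / Λ ≤ 1 / (2 * x ^ 2) := one_div_le_one_div_of_le (by positivity) hz5
    have h3 : B * H * (1 / Λ) ≤ B * x / 2 := by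
      calc B * H * (1 / Λ) ≤ B * H * (1 / (2 * x ^ 2)) :=
            mul_le_mul_of_nonneg_left h2 (by positivity)
        _ = B * x / 2 := by rw [← hx3]; field_simp
    have h4 : B * x / 2 ≤ x ^ 2 / 20 := by nlinarith
    have h5 : B * H * (η + 1 / Λ) = B * H * η + B * H * (1 / Λ) := by ring
    rw [h5]
    have h6 : 0 ≤ x ^ 2 := by positivity
    linarith
  -- the second derivative near the interval
  have hnear : ∀ z : ℝ, α - 1 / Λ ≤ z → z ≤ α + η + 1 / Λ →
      |h.derivative.derivative.eval z - h.derivative.derivative.eval z0| ≤ Λ / 10 := by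
    intro z h1 h2
    have h3 := pmv h.derivative.derivative (B * H) (-4) 4
      (fun y hy1 hy2 => (hder y (abs_le.2 ⟨hy1, hy2⟩)).2) z z0 (by linarith) (by linarith)
      (by linarith) (by linarith)
    have h4 : |z - z0| ≤ η + 1 / Λ := by
      rw [abs_le]; constructor <;> linarith
    calc |h.derivative.derivative.eval z - h.derivative.derivative.eval z0|
        ≤ B * H * |z - z0| := h3
      _ ≤ B * H * (η + 1 / Λ) := mul_le_mul_of_nonneg_left h4 (by positivity)
      _ ≤ Λ / 10 := hBH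
  obtain ⟨σ, hσ, hσ2⟩ : ∃ σ : ℝ, (σ = 1 ∨ σ = -1) ∧
      σ * h.derivative.derivative.eval z0 = Λ := by
    rcases abs_choice (h.derivative.derivative.eval z0) with hc | hc
    · exact ⟨1, Or.inl rfl, by rw [hΛ, hc]; ring⟩
    · exact ⟨-1, Or.inr rfl, by rw [hΛ, hc]; ring⟩
  have hhσ : ∀ z : ℝ, α - 1 / Λ ≤ z → z ≤ α + η + 1 / Λ →
      9 / 10 * Λ ≤ σ * h.derivative.derivative.eval z ∧
      σ * h.derivative.derivative.eval z ≤ 11 / 10 * Λ := by
    intro z h1 h2
    have h3 := hnear z h1 h2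
    rw [abs_le] at h3
    rcases hσ with rfl | rfl
    · constructor <;> linarith [h3.1, h3.2]
    · constructor <;> linarith [h3.1, h3.2]
  -- the cube root of `Λ`
  obtain ⟨R, hR0, hR3⟩ : ∃ R : ℝ, 0 < R ∧ R ^ 3 = Λ := by
    refine ⟨Λ ^ ((1 : ℝ) / 3), Real.rpow_pos_of_pos hΛ0 _, ?_⟩
    rw [← Real.rpow_natCast, ← Real.rpow_mul hΛ0.le]
    norm_num
  have hR1 : 1 ≤ R := by
    by_contra hcon
    push Not at hcon
    have : R ^ 3 < 1 := pow_lt_one₀ hR0.le hcon (by norm_num)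
    linarith
  have hRx : R ≤ B * x := by
    by_contra hcon
    push Not at hcon
    have h1 : (B * x) ^ 3 < R ^ 3 := pow_lt_pow_left₀ hcon (by positivity) (by norm_num)
    have h2 : (B * x) ^ 3 = B ^ 3 * H := by rw [mul_pow, hx3]
    have h3 : B * H ≤ B ^ 3 * H := by
      apply mul_le_mul_of_nonneg_right _ hH0.le
      nlinarith
    rw [hR3] at h1
    linarith
  -- the length
  have hlen : ∀ p ∈ S, ∀ q ∈ S, |(p.2 : ℝ) - q.2| ≤ 11 / 10 * Λ * η + 1 / 4 := by
    intro p hp q hq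
    obtain ⟨z, a1, a2, -, a4, -⟩ := hp
    obtain ⟨z', b1, b2, -, b4, -⟩ := hq
    have h3 := pmv h.derivative (11 / 10 * Λ) α (α + η)
      (by
        intro y hy1 hy2
        have h4 := hnear y (by linarith) (by linarith)
        have h5 : |h.derivative.derivative.eval y| ≤
            |h.derivative.derivative.eval y - h.derivative.derivative.eval z0| +
            |h.derivative.derivative.eval z0| := by
          have := abs_add_le (h.derivative.derivative.eval y - h.derivative.derivative.eval z0)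
            (h.derivative.derivative.eval z0)
          simpa using this
        linarith) z z' a1 a2 b1 b2
    have h6 : |z - z'| ≤ η := by rw [abs_le]; constructor <;> linarith
    have h7 : 11 / 10 * Λ * |z - z'| ≤ 11 / 10 * Λ * η :=
      mul_le_mul_of_nonneg_left h6 (by positivity)
    have h8 : (p.2 : ℝ) - q.2 = ((p.2 : ℝ) + h.derivative.eval z) -
        ((q.2 : ℝ) + h.derivative.eval z') -
        (h.derivative.eval z - h.derivative.eval z') := by ring
    have h9 : |h.derivative.eval z - h.derivative.eval z'| ≤ 11 / 10 * Λ * η := by linarith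
    rw [abs_le] at a4 b4 h9
    rw [h8, abs_le]
    constructor <;> linarith [a4.1, a4.2, b4.1, b4.2, h9.1, h9.2]
  have hthree : ∀ p : Fin 3 → ℤ × ℤ, Function.Injective p → (∀ i, p i ∈ S) →
      ∃ i j, R ≤ |((p i).2 : ℝ) - (p j).2| := by
    intro p hp hpS
    obtain ⟨i, j, hij⟩ := cl2s hCL2 h Λ α (α + η) σ hσ hΛ1 (by linarith) hhσ p hp
      (by
        intro i
        obtain ⟨z, a1, a2, a3, a4, -⟩ := hpS i
        refine ⟨z, a1, a2, ?_, a4⟩
        have h1 : |((p i).1 : ℝ) + (p i).2 * z + h.eval z| ≤ 1 / H ^ 2 := by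
          rw [le_div_iff₀ (by positivity)]
          exact a3
        have h2 : 100 * Λ ≤ H ^ 2 := by
          have h3 : 100 * B ≤ H := by
            have h4 : B ≤ B ^ 3 := by
              have h5 : B * 1 ≤ B * B ^ 2 := mul_le_mul_of_nonneg_left hB2 hB0.le
              have h6 : B * B ^ 2 = B ^ 3 := by ring
              linarith only [h5, h6]
            linarith only [h4, hH, hB0]
          have h7 : 100 * B * H ≤ H * H := mul_le_mul_of_nonneg_right h3 hH0.le
          have h8 : H ^ 2 = H * H := sq H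
          have h9 : 100 * B * H = 100 * (B * H) := by ring
          linarith only [h7, h8, h9, hΛB]
        exact le_trans h1 (one_div_le_one_div_of_le (by positivity) h2))
    refine ⟨i, j, ?_⟩
    by_contra hcon
    push Not at hcon
    have h1 : |((p i).2 : ℝ) - (p j).2| ^ 3 < R ^ 3 :=
      pow_lt_pow_left₀ hcon (abs_nonneg _) (by norm_num)
    rw [hR3] at h1
    linarith
  obtain ⟨hfin, hcard⟩ := cnt S R (11 / 10 * Λ * η + 1 / 4) hR0 (by positivity) hlen hthree
  refine ⟨hfin, le_trans hcard ?_⟩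
  have h1 : (11 / 10 * Λ * η + 1 / 4) / R ≤ 11 / 1000 * x + 1 / 4 := by
    rw [div_le_iff₀ hR0]
    have h2 : 11 / 10 * Λ * η ≤ 11 / 1000 * x * R := by
      have h3 : Λ * η = R * (R ^ 2 * η) := by rw [← hR3]; ring
      have h4 : R ^ 2 * η ≤ x / 100 := by
        have h5 : R ^ 2 ≤ (B * x) ^ 2 := pow_le_pow_left₀ hR0.le hRx 2
        calc R ^ 2 * η ≤ (B * x) ^ 2 * η := mul_le_mul_of_nonneg_right h5 hη0.le
          _ = x / 100 * (η * (100 * B ^ 2 * x)) := by ring
          _ = x / 100 := by rw [hηx]; ring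
      have h6 : R * (R ^ 2 * η) ≤ R * (x / 100) := mul_le_mul_of_nonneg_left h4 hR0.le
      calc 11 / 10 * Λ * η = 11 / 10 * (Λ * η) := by ring
        _ = 11 / 10 * (R * (R ^ 2 * η)) := by rw [h3]
        _ ≤ 11 / 10 * (R * (x / 100)) := by linarith
        _ = 11 / 1000 * x * R := by ring
    have h7 : (1 : ℝ) / 4 ≤ 1 / 4 * R := by linarith
    have h8 : (11 / 1000 * x + 1 / 4) * R = 11 / 1000 * x * R + 1 / 4 * R := by ring
    rw [h8]
    linarith
  have h2 : 100 * x ≤ 100 * B ^ 2 * x := by nlinarith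
  linarith

end Pool.Agent.Q137.UG3
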